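import Pool.Agent.Helper72.PG.CandU

/-! MP_12a1af_nt: the Erdos-Turan problem for bases whose representations can be chosen by a rule
with bounded look-ahead; bounded look-ahead is the threshold for a power of `n`. -/

namespace Pool.Agent.Results.MP_12a1af_nt.LipschitzChoice

open Finset Filter Pool.Agent.Helper72.NS

/-- Let `h` be nondecreasing. Suppose that the representations `n = f n + (n - f n)` can be chosen
so that the residue of `f n` modulo `m j` is determined by the residue of `n` modulo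
`m (j + h j)`, for a divisibility chain `m` with bounded ratios, for all but at most `y ^ c` of the
integers below `y` in one residue class modulo `m k`. If `h` is bounded, then the mean square of the
number of representations below `y`, and its maximum, are at least a power of `y`. Conversely, if
such rules for all integers and for the moduli `2 ^ j` always force a power of `n`, then `h` is
bounded. -/
theorem result (h : ℕ → ℕ) (hh : Monotone h) : List.TFAE [
    BddAbove (Set.range h),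
    ∀ Q : ℕ, ∃ c : ℝ, 0 < c ∧ ∃ C : ℕ,
      ∀ (A D : Set ℕ) (m f : ℕ → ℕ) (a k y : ℕ), Chain m → (∀ j, m (j + 1) ≤ Q * m j) →
      C ≤ y → (m k : ℝ) ≤ (y : ℝ) ^ c →
      ({n : ℕ | n < y ∧ n % m k = a % m k ∧ n ∉ D}.ncard : ℝ) ≤ (y : ℝ) ^ c →
      (∀ n ∈ D, f n ≤ n ∧ f n ∈ A ∧ n - f n ∈ A) →
      (∀ j, ∀ n ∈ D, ∀ n' ∈ D, n % m (j + h j) = n' % m (j + h j) → f n % m j = f n' % m j) →
      (y : ℝ) ^ (1 + 2 * c) ≤ ∑ n ∈ Finset.range y, (rep A n : ℝ) ^ 2 ∧
      ∃ n < y, (y : ℝ) ^ c ≤ rep A n,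
    ∀ (A : Set ℕ) (f : ℕ → ℕ), (∀ n, f n ≤ n ∧ f n ∈ A ∧ n - f n ∈ A) →
      (∀ j n n', n % 2 ^ (j + h j) = n' % 2 ^ (j + h j) → f n % 2 ^ j = f n' % 2 ^ j) →
      ∃ c : ℝ, 0 < c ∧ ∃ᶠ n : ℕ in atTop, (n : ℝ) ^ c ≤ rep A n] :=
  Pool.Agent.Helper72.PG.candU h hh

end Pool.Agent.Results.MP_12a1af_nt.LipschitzChoice
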