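import Pool.Agent.Helper72.NS.CandY

/-! MP_12a1af_nt: the Erdos-Turan problem and the choice of representations. -/

namespace Pool.Agent.Results.MP_12a1af_nt.OnlineChoice

open Finset Filter Pool.Agent.Helper72.NS

/-- Differences in decreasing sets, mean squares of the number of representations, and choices of
representations. -/
theorem result :
    (∀ (A : Set ℕ) (x : ℕ) (G : ℕ → Finset ℤ),
      (∀ j, G (j + 1) ⊆ G j ∧ 2 * (G (j + 1)).card ≤ (G j).card) →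
      (∀ J, ∑ j ∈ Finset.range J, (near A x (G j) : ℝ) ^ 2 / ((G j).card : ℝ) ≤
        12 * ∑ n ∈ Finset.range (2 * x), (rep A n : ℝ) ^ 2) ∧
      ∀ (D : Finset ℕ) (f : ℕ → ℕ), (∀ n ∈ D, n < x ∧ f n ≤ n ∧ f n ∈ A ∧ n - f n ∈ A) →
        ∀ j, close D f (G j) ≤ near A x (G j) ^ 2) ∧
    (∀ (A D : Set ℕ) (m : ℕ → ℕ) (f : ℕ → ℕ → ℕ), Chain m →
      (∀ j, ∀ n ∈ D, f j n ≤ n ∧ f j n ∈ A ∧ n - f j n ∈ A) →
      (∀ J, (num D (m J) : ℝ) ^ 2 * ∑ j ∈ Finset.range (J + 1),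
          (m j : ℝ) / (((fun n => (n % m j, f j n % m j)) '' D).ncard : ℝ)
        ≤ 24 * m J * ∑ n ∈ Finset.range (2 * m J), (rep A n : ℝ) ^ 2) ∧
      ∀ δ : ℝ, 0 < δ → (∃ᶠ J : ℕ in atTop, δ * m J ≤ num D (m J)) →
        (¬ Summable fun j =>
          (m j : ℝ) / (((fun n => (n % m j, f j n % m j)) '' D).ncard : ℝ)) →
        ∀ g : ℕ, ∃ n, g < rep A n) ∧
    (∀ q h t : ℕ, 2 ≤ q → ∃ E : ℝ, 0 < E ∧ ∀ (A : Set ℕ) (f : ℕ → ℕ),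
      (∀ n ≥ t, f n ≤ n ∧ f n ∈ A ∧ n - f n ∈ A) →
      (∀ j, ∀ n ≥ t, ∀ n' ≥ t, n % q ^ (j + h) = n' % q ^ (j + h) →
        f n % q ^ j = f n' % q ^ j) →
      (∀ᶠ x : ℕ in atTop, x * Real.log x / E ≤ ∑ n ∈ Finset.range x, (rep A n : ℝ) ^ 2) ∧
      ∃ᶠ n : ℕ in atTop, Real.log n / E ≤ rep A n) :=
  candY

end Pool.Agent.Results.MP_12a1af_nt.OnlineChoice
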